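import Mathlib
import Pool.Agent.Work.MP_332575_al.Bd.B01

/-! # Ordered products of commuting elements -/

set_option autoImplicit false
set_option linter.unusedVariables false
set_option linter.unusedSectionVars false

namespace VRC.Cx

section

variable {G : Type*} [Group G] {d : ℕ} (t : Fin d → G)

/-- product over a list of indices -/
def tpl (l : List (Fin d)) (v : Fin d → ℤ) : G := (l.map fun i => t i ^ v i).prod

lemma tpw_eq_tpl (v : Fin d → ℤ) : tpw t v = tpl t (List.finRange d) v := by
  unfold tpw tpl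
  rw [List.ofFn_eq_map]

lemma tpw_zero : tpw t 0 = 1 := by
  rw [tpw_eq_tpl]
  unfold tpl
  apply List.prod_eq_one
  intro x hx
  obtain ⟨i, _, rfl⟩ := List.mem_map.mp hx
  simp

variable (hc : ∀ i j, t i * t j = t j * t i)

include hc

lemma tpl_comm (l : List (Fin d)) (v : Fin d → ℤ) (j : Fin d) (n : ℤ) :
    Commute (t j ^ n) (tpl t l v) := by
  induction l with
  | nil => exact Commute.one_right _
  | cons i l ih =>
    have h1 : Commute (t j ^ n) (t i ^ v i) := Commute.zpow_zpow (hc j i) n (v i)
    exact h1.mul_right ih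

lemma tpl_add (l : List (Fin d)) (v w : Fin d → ℤ) :
    tpl t l (v + w) = tpl t l v * tpl t l w := by
  induction l with
  | nil => simp [tpl]
  | cons i l ih =>
    have e : ∀ u : Fin d → ℤ, tpl t (i :: l) u = t i ^ u i * tpl t l u := fun u => by
      simp [tpl]
    rw [e, e, e, ih, Pi.add_apply, zpow_add]
    have h := tpl_comm t hc l v i (w i)
    calc t i ^ v i * t i ^ w i * (tpl t l v * tpl t l w)
        = t i ^ v i * (t i ^ w i * tpl t l v) * tpl t l w := by group
      _ = t i ^ v i * (tpl t l v * t i ^ w i) * tpl t l w := by rw [h.eq]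
      _ = t i ^ v i * tpl t l v * (t i ^ w i * tpl t l w) := by group

lemma tpw_add (v w : Fin d → ℤ) : tpw t (v + w) = tpw t v * tpw t w := by
  simp only [tpw_eq_tpl]; exact tpl_add t hc _ v w

/-- the homomorphism `v ↦ t^v` -/
def tauH : Multiplicative (Fin d → ℤ) →* G where
  toFun v := tpw t (Multiplicative.toAdd v)
  map_one' := tpw_zero t
  map_mul' v w := tpw_add t hc _ _

lemma tauH_apply (v : Fin d → ℤ) : tauH t hc (Multiplicative.ofAdd v) = tpw t v := rfl

lemma tpw_neg (v : Fin d → ℤ) : tpw t (-v) = (tpw t v)⁻¹ :=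
  map_inv (tauH t hc) (Multiplicative.ofAdd v)

lemma tpw_zsmul (v : Fin d → ℤ) (n : ℤ) : tpw t (n • v) = tpw t v ^ n :=
  map_zpow (tauH t hc) (Multiplicative.ofAdd v) n

lemma tpw_commute (v w : Fin d → ℤ) : tpw t v * tpw t w = tpw t w * tpw t v := by
  rw [← tpw_add t hc, ← tpw_add t hc, add_comm]

lemma tpl_single (l : List (Fin d)) (hl : l.Nodup) (i : Fin d) (n : ℤ) :
    tpl t l (Pi.single i n) = if i ∈ l then t i ^ n else 1 := by
  induction l with
  | nil => simp [tpl]
  | cons j l ih =>
    have e : tpl t (j :: l) (Pi.single i n) = t j ^ (Pi.single i n : Fin d → ℤ) j *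
        tpl t l (Pi.single i n) := by simp [tpl]
    rw [e, ih (List.nodup_cons.mp hl).2]
    by_cases hij : j = i
    · subst hij
      have : j ∉ l := (List.nodup_cons.mp hl).1
      simp [this]
    · have h2 : ¬ i = j := fun h => hij h.symm
      by_cases hi : i ∈ l <;> simp [Pi.single_eq_of_ne hij, hi, h2]

lemma tpw_single (i : Fin d) (n : ℤ) : tpw t (Pi.single i n) = t i ^ n := by
  rw [tpw_eq_tpl, tpl_single t hc _ (List.nodup_finRange d)]
  simp

lemma tpw_sum {n : ℕ} (b : Fin n → Fin d → ℤ) (v : Fin n → ℤ) :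
    tpw t (∑ i, v i • b i) = tpw (fun i => tpw t (b i)) v := by
  have h1 : ∀ l : List (Fin n), tpw t ((l.map fun i => v i • b i).sum) =
      (l.map fun i => tpw t (b i) ^ v i).prod := by
    intro l
    induction l with
    | nil => exact tpw_zero t
    | cons i l ih => rw [List.map_cons, List.sum_cons, tpw_add t hc, ih, List.map_cons,
        List.prod_cons, tpw_zsmul t hc]
  have h2 := h1 (List.finRange n)
  rw [← List.ofFn_eq_map, ← List.ofFn_eq_map, List.sum_ofFn] at h2
  exact h2

/-- conjugation of `t^v` by an element acting on the `t_i` by `m` -/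
lemma tpw_conj (g : G) (m : Fin d → Fin d → ℤ) (h : ∀ i, g * t i * g⁻¹ = tpw t (m i))
    (v : Fin d → ℤ) : g * tpw t v * g⁻¹ = tpw t (∑ i, v i • m i) := by
  rw [tpw_sum t hc m v]
  have : ∀ l : List (Fin d), g * (l.map fun i => t i ^ v i).prod * g⁻¹ =
      (l.map fun i => tpw t (m i) ^ v i).prod := by
    intro l
    induction l with
    | nil => simp
    | cons i l ih =>
      rw [List.map_cons, List.prod_cons, List.map_cons, List.prod_cons, ← ih, ← h i]
      have : (g * t i * g⁻¹) ^ v i = g * t i ^ v i * g⁻¹ := by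
        rw [conj_zpow]
      rw [this]; group
  unfold tpw
  rw [List.ofFn_eq_map, List.ofFn_eq_map]
  exact this _

end

end VRC.Cx
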